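import Mathlib
import Pool.Agent.J6H66.PE.Asm2
import Pool.Agent.J6H31.PE.Cyc
import Pool.Agent.J6H10.PE.Dih
import Pool.Agent.J6H92.PE.Psl
import Pool.Agent.J6H66.PE.CQ
import Pool.Agent.J6H57.PE.Desc
import Pool.Agent.J6H98.PE.Split2

/-!
# Embedding problems over fields containing a suitable finite extension of a given field

Let `k` be any field of characteristic `0`, for example `k = ℚ`, and `Λ` its algebraic closure. The
definitions of the classes of groups and homomorphisms are in the file
`Pool/Agent/J6H66/PE/Defs.lean`:

* `CyclicOut T`: the outer automorphism group of the group `T` is cyclic.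
* `PlaneAction Λ θ`, for an action `θ : D → Aut(A)`: the group `D` has a two-dimensional
  representation over `Λ` such that the elements which act by scalars act trivially on `A`.
* `HasCompl Λ T`: the inner automorphisms of `T` have a complement `D` in `Aut T` whose action on
  `T` is plane.
* A `Letter` is a finite group with trivial centre and `CyclicOut` or `HasCompl`, or any finite
  group, or a plane action of a finite group on a finite group. `IsLetter S N`: the group `N` is
  isomorphic to one of the letters of the first kind in the list `S`.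
* For a finite list `S` of letters, `Kernel S` is the smallest class of groups which contains the
  groups with `IsLetter S` and all groups with a finite composition series whose factors are simple
  groups with `IsLetter S`, and which is closed under finite products of indecomposable groups,
  under extensions with a characteristic subgroup (`M` characteristic in `N`, `M` and `N / M` in the
  class) and under isomorphism.
* `Step S` is the smallest class of homomorphisms `π : W' → W` of groups which is closed under
  composition and under quotients (`π ∘ q` in the class, `q` surjective, then `π` in the class) and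
  contains
  - all epimorphisms, split or not, with kernel in `Kernel S`,
  - all epimorphisms, split or not, such that there is a homomorphism `p : W' → H`, injective on
    `ker π`, to a letter `H` of the second kind, and `W' / (ker p · ker π)` is cyclic,
  - all split ones with kernel `A^m`, where `W` acts through a homomorphism
    `W → (A ⋊ D) ≀ S_m`, for a letter `θ : D → Aut(A)` of the third kind,
  - all split ones with a finite abelian kernel.
-/

set_option autoImplicit false

open Pool.Agent.J6H66.PE (Letter Step CyclicOut PlaneAction)

namespace Pool.Agent.Results.MP_e9d732_al.FiniteConstants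

/-- The field `K` is Hilbertian, as in the frozen statement S03429. -/
def Hilbertian (K : Type) [Field K] : Prop :=
  ∀ (f : Polynomial (Polynomial K)), f.Monic → Irreducible f →
    (f.map (algebraMap (Polynomial K) (FractionRing (Polynomial K)))).Separable →
    ∀ g : Polynomial K, g ≠ 0 →
      ∃ a : K, g.eval a ≠ 0 ∧ Irreducible (f.map (Polynomial.evalRingHom a))

/-- The embedding problem `α : G → Gal(L/K)` has a regular solution: a finite Galois extension `F`
of `K(t)` with group `G` which contains `L`, the action on `L` is given by `α`, and `L` is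
algebraically closed in `F`. If `K` is Hilbertian, `α` has also a proper solution (the conclusion
of the frozen statement S03429): a finite Galois extension `F` of `K` containing `L` and an
isomorphism `γ : Gal(F/K) → G` such that `α ∘ γ` is the restriction to `L`. -/
def Solvable (K L G : Type) [Field K] [Field L] [Algebra K L] [FiniteDimensional K L]
    [IsGalois K L] [Group G] (α : G →* (L ≃ₐ[K] L)) : Prop :=
  (∃ (F : Type) (_ : Field F) (_ : Algebra (RatFunc K) F) (_ : Algebra L F)
    (_ : Algebra K F) (_ : IsScalarTower K (RatFunc K) F) (_ : IsScalarTower K L F)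
    (_ : FiniteDimensional (RatFunc K) F) (_ : IsGalois (RatFunc K) F)
    (γ : (F ≃ₐ[RatFunc K] F) ≃* G),
    (∀ (σ : F ≃ₐ[RatFunc K] F) (x : L),
        σ (algebraMap L F x) = algebraMap L F (α (γ σ) x)) ∧
    ∀ y : F, IsAlgebraic L y → y ∈ Set.range (algebraMap L F)) ∧
  (Hilbertian K →
    ∃ (F : Type) (_ : Field F) (_ : Algebra K F) (_ : Algebra L F) (_ : IsScalarTower K L F),
      FiniteDimensional K F ∧ IsGalois K F ∧
      ∃ γ : (F ≃ₐ[K] F) ≃* G, ∀ σ : F ≃ₐ[K] F, α (γ σ) = σ.restrictNormal L)

/-- For all extensions `K` of `k'` and all finite Galois extensions `L` of `K`, the embedding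
problems `α : G → Gal(L/K)` in the class `Step S` are solvable. -/
def StepSolvable (k' : Type) [Field k'] {Λ : Type} [Field Λ] (S : List (Letter Λ)) : Prop :=
  ∀ (K L : Type) [Field K] [Algebra k' K] [Field L] [Algebra K L] [FiniteDimensional K L]
    [IsGalois K L] (G : Type) [Group G] (α : G →* (L ≃ₐ[K] L)), Step S α → Solvable K L G α

/-- For all extensions `K` of `k'` and all finite Galois extensions `L` of `K`, the epimorphisms
`α : G → Gal(L/K)` with cyclic `Gal(L/K)`, and those which have a section `s` such that the action
of `Gal(L/K)` on the kernel by conjugation with `s σ` is plane over `Λ`, are solvable. -/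
def GroupSolvable (k' Λ G : Type) [Field k'] [Field Λ] [Group G] : Prop :=
  ∀ (K L : Type) [Field K] [Algebra k' K] [Field L] [Algebra K L] [FiniteDimensional K L]
    [IsGalois K L] (α : G →* (L ≃ₐ[K] L)), Function.Surjective α →
    (IsCyclic (L ≃ₐ[K] L) ∨ ∃ s : (L ≃ₐ[K] L) →* G, (∀ σ, α (s σ) = σ) ∧
      PlaneAction Λ ((MulAut.conjNormal : G →* MulAut α.ker).comp s)) → Solvable K L G α

theorem solvable_of_reg (K L G : Type) [Field K] [Field L] [Algebra K L] [FiniteDimensional K L]
    [IsGalois K L] [Group G] (α : G →* (L ≃ₐ[K] L)) (h : Pool.Agent.H391R2.T4.RegSol K L G α) :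
    Solvable K L G α := by
  refine ⟨h, fun hH => ?_⟩
  obtain ⟨F, i1, i2, i3, i4, i5, i6, i7, i8, γ, hγ, -⟩ := h
  have hfin : Finite G := Finite.of_equiv _ γ.toEquiv
  exact Pool.Agent.TH377.IG.spec_hilb hH L G α ⟨F, i1, i2, i3, i4, i5, i6, i7, i8, γ, hγ⟩

end Pool.Agent.Results.MP_e9d732_al.FiniteConstants

open Pool.Agent.Results.MP_e9d732_al.FiniteConstants in
/-- Let `k` be a field of characteristic `0` with algebraic closure `Λ`.
(1) For every finite list `S` of letters there is a finite extension `k'` of `k` in `Λ` such that
over all extensions `K` of `k'` all embedding problems in the class `Step S` have regular solutions,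
and proper solutions if `K` is Hilbertian.
(2) In particular: for every finite group `G` there is a finite extension `k'` of `k` in `Λ` such
that over all extensions `K` of `k'` all embedding problems with group `G`, split or not, with cyclic
`Gal(L/K)`, and all split ones with a plane action of `Gal(L/K)` on the kernel have regular
solutions, and proper solutions if `K` is Hilbertian.
(3) Examples: all actions of finite cyclic groups, of dihedral groups of order `2 n`, `n` odd, and
of subgroups of `S_3` are plane; the groups `A_n`, `n = 5` or `n ≥ 7`, and the groups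
`PSL_2(F)`, `F` a finite field with `q = p ^ f ≥ 4` elements, `p = 2` or `f` odd, have trivial centre
and a cyclic outer automorphism group (so they are letters). -/
theorem Pool.Agent.Results.MP_e9d732_al.FiniteConstants.result (k : Type) [Field k]
    [CharZero k] :
    (∀ S : List (Letter (AlgebraicClosure k)),
      ∃ k' : IntermediateField k (AlgebraicClosure k), FiniteDimensional k k' ∧
        StepSolvable k' S) ∧
    (∀ (G : Type) [Group G] [Finite G],
      ∃ k' : IntermediateField k (AlgebraicClosure k), FiniteDimensional k k' ∧
        GroupSolvable k' (AlgebraicClosure k) G) ∧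
    (∀ (A D : Type) [Group A] [Group D] [Finite D] (θ : D →* MulAut A),
      (IsCyclic D ∨ (∃ n : ℕ, Odd n ∧ Nonempty (D ≃* DihedralGroup n)) ∨
        ∃ j : D →* Equiv.Perm (Fin 3), Function.Injective j) →
      PlaneAction (AlgebraicClosure k) θ) ∧
    (∀ n : ℕ, n = 5 ∨ 7 ≤ n → Subgroup.center (alternatingGroup (Fin n)) = ⊥ ∧
      CyclicOut (alternatingGroup (Fin n))) ∧
    (∀ (F : Type) [Field F] [Finite F] (p f : ℕ), p.Prime → 4 ≤ Nat.card F →
      Nat.card F = p ^ f → (p = 2 ∨ Odd f) →
      Subgroup.center (Matrix.ProjectiveSpecialLinearGroup (Fin 2) F) = ⊥ ∧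
        CyclicOut (Matrix.ProjectiveSpecialLinearGroup (Fin 2) F)) := by
  have hCQ := Pool.Agent.J6H66.PE.main_CQ Pool.Agent.J6H57.PE.s_pd
  have hPS := Pool.Agent.J6H98.PES.ps2 Pool.Agent.J6H57.PE.s_pd
  have hch : CharZero (AlgebraicClosure k) :=
    charZero_of_injective_algebraMap (algebraMap k (AlgebraicClosure k)).injective
  refine ⟨fun S => ?_, fun G _ _ => ?_, ?_,
    fun n hn => ⟨alternatingGroup.center_eq_bot (by
      rw [Nat.card_eq_fintype_card, Fintype.card_fin]; omega),
      Pool.Agent.J6H66.PE.alt_cyclicOut n hn⟩,
    fun F _ _ p f hp h4 hc ho => ⟨Pool.Agent.Y60.DC.psl_center F h4,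
      Pool.Agent.J6H92.PE.main_PSL F p f hp h4 hc ho⟩⟩
  · obtain ⟨k', hfd, h⟩ := Pool.Agent.J6H66.PE.step_ev hCQ hPS (k := k) S
    refine ⟨k', hfd, fun K L _ _ _ _ _ _ G _ α hα => ?_⟩
    have hinf : Infinite K := Infinite.of_injective _ ((algebraMap k' K).comp
      (algebraMap k k')).injective
    obtain ⟨-, h2⟩ := h k' le_rfl _ _ α hα inferInstance
    exact solvable_of_reg K L G α (h2 K L (MulEquiv.refl _))
  · obtain ⟨k', hfd, h⟩ := (Pool.Agent.J6H66.PE.cyc_ev hCQ (k := k)
      (Λ := AlgebraicClosure k) G).and (Pool.Agent.J6H66.PE.split_ev hPS (k := k) G)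
    refine ⟨k', hfd, fun K L _ _ _ _ _ _ α hα hc => ?_⟩
    rcases hc with hc | ⟨s, hs, hP⟩
    · exact solvable_of_reg K L G α ((h k' le_rfl).1 K L α hα hc)
    · exact solvable_of_reg K L G α ((h k' le_rfl).2 K L α s hs hP)
  · intro A D _ _ _ θ h
    refine Pool.Agent.J6H66.PE.plane_of_pl ?_ θ
    rcases h with h | ⟨n, hn, ⟨e⟩⟩ | ⟨j, hj⟩
    · exact Pool.Agent.J6H31.PE.main_CYC (AlgebraicClosure k) D
    · exact (Pool.Agent.J6H10.PE.s_dih (AlgebraicClosure k) n hn).comp (e : D →* DihedralGroup n)
        e.injective
    · exact (Pool.Agent.J6H83.KA.pl_S3 (AlgebraicClosure k)).comp j hj
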