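import Pool.Agent.J6H83.KA.Cls
import Pool.Agent.J6H83.KA.ExAlt
import Pool.Agent.J6H83.KA.ExPsl

/-!
# Embedding problems over fields with an ample subfield

The definitions of the class of homomorphisms are in the file `Pool/Agent/J6H83/KA/Defs.lean`:

* `Plane k D`: the group `D` embeds in `S_3`, or has a two-dimensional representation over `k` in
  which only `1` is a scalar matrix.
* `HasCompl k T`: the inner automorphisms of `T` have a complement `D` in `Aut T`, and `Plane k D`.
* `Factor k T`: `T` is a finite nonabelian simple group with `HasCompl k T`.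
* `Kernel k` is the smallest class of groups which contains all finite groups whose composition
  factors satisfy `Factor k` and all finite groups with trivial centre and `HasCompl k`, and which
  is closed under finite products of indecomposable groups, under extensions with a characteristic
  subgroup (`M` characteristic in `N`, `M` and `N / M` in the class) and under isomorphism.
* `Step k` is the smallest class of homomorphisms `π : W' → W` of groups which is closed under
  composition and under quotients (`π ∘ q` in the class, `q` surjective, then `π` in the class) and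
  contains
  - all epimorphisms, split or not, with kernel in `Kernel k`,
  - all split ones with kernel `A^m`, `A` any finite group, where `W` acts through a homomorphism
    `W → (A ⋊ D) ≀ S_m` for a group `D` acting on `A` with `Plane k D` (for example the
    projections `A ⋊ W → W` where `W` acts through a quotient which embeds in `S_3`),
  - all split ones with a finite abelian kernel.
-/

set_option autoImplicit false

open Pool.Agent.J6H83.KA (Step Factor)

namespace Pool.Agent.Results.MP_e9d732_al.KernelsOverAmple

/-- The finite embedding problem `α : G → Gal(L/K)` has a proper solution (the conclusion of the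
frozen statement S03429): a finite Galois extension `F` of `K` containing `L` and an isomorphism
`γ : Gal(F/K) → G` such that `α ∘ γ` is the restriction to `L`. -/
def ProperlySolvable (K L G : Type) [Field K] [Field L] [Algebra K L] [FiniteDimensional K L]
    [IsGalois K L] [Group G] (α : G →* (L ≃ₐ[K] L)) : Prop :=
  ∃ (F : Type) (_ : Field F) (_ : Algebra K F) (_ : Algebra L F) (_ : IsScalarTower K L F),
    FiniteDimensional K F ∧ IsGalois K F ∧
    ∃ γ : (F ≃ₐ[K] F) ≃* G, ∀ σ : F ≃ₐ[K] F, α (γ σ) = σ.restrictNormal L

/-- The embedding problem `α : G → Gal(L/K)` has a regular solution: a finite Galois extension `F`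
of `K(t)` with group `G` which contains `L`, the action on `L` is given by `α`, and `L` is
algebraically closed in `F`. -/
def RegularlySolvable (K L G : Type) [Field K] [Field L] [Algebra K L] [Group G]
    (α : G →* (L ≃ₐ[K] L)) : Prop :=
  ∃ (F : Type) (_ : Field F) (_ : Algebra (RatFunc K) F) (_ : Algebra L F)
    (_ : Algebra K F) (_ : IsScalarTower K (RatFunc K) F) (_ : IsScalarTower K L F)
    (_ : FiniteDimensional (RatFunc K) F) (_ : IsGalois (RatFunc K) F)
    (γ : (F ≃ₐ[RatFunc K] F) ≃* G),
    (∀ (σ : F ≃ₐ[RatFunc K] F) (x : L),
        σ (algebraMap L F x) = algebraMap L F (α (γ σ) x)) ∧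
    ∀ y : F, IsAlgebraic L y → y ∈ Set.range (algebraMap L F)

/-- Let `k` be an ample field of characteristic `0` (every finite polynomial system over `k` with a
solution in `k((t))` has a solution in `k`) and let `K` be an extension of `k`. Every embedding
problem `α : G → Gal(L/K)` in the class `Step k` has a regular solution, and a proper solution if
`K` is Hilbertian. The groups `A_n` (`n = 5`, `n ≥ 7`), `PSL_2(p)` (`p ≥ 5` prime) and all finite
nonabelian simple groups without outer automorphisms are in the class `Factor k` (so all
embedding problems whose kernel has composition factors of these kinds are covered). -/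
theorem result (k : Type) [Field k] [CharZero k]
    (hk : ∀ (n : ℕ) (s : Finset (MvPolynomial (Fin n) k)),
      (∃ x : Fin n → LaurentSeries k, ∀ p ∈ s, MvPolynomial.aeval x p = 0) →
      ∃ y : Fin n → k, ∀ p ∈ s, MvPolynomial.eval y p = 0) :
    (∀ (K L G : Type) [Field K] [Algebra k K] [Field L] [Algebra K L] [FiniteDimensional K L]
      [IsGalois K L] [Group G] (α : G →* (L ≃ₐ[K] L)), Step k α →
      RegularlySolvable K L G α ∧
      ((∀ (f : Polynomial (Polynomial K)), f.Monic → Irreducible f →
          (f.map (algebraMap (Polynomial K) (FractionRing (Polynomial K)))).Separable →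
          ∀ g : Polynomial K, g ≠ 0 →
            ∃ a : K, g.eval a ≠ 0 ∧ Irreducible (f.map (Polynomial.evalRingHom a))) →
        ProperlySolvable K L G α)) ∧
    (∀ n : ℕ, n = 5 ∨ 7 ≤ n → Factor k (alternatingGroup (Fin n))) ∧
    (∀ (p : ℕ) [Fact p.Prime], 5 ≤ p →
      Factor k (Matrix.ProjectiveSpecialLinearGroup (Fin 2) (ZMod p))) ∧
    (∀ (T : Type) [Group T] [Finite T] [IsSimpleGroup T], Subgroup.center T = ⊥ →
      Function.Surjective (MulAut.conj : T →* MulAut T) → Factor k T) := by
  refine ⟨?_, fun n hn => Pool.Agent.J6H83.KA.alt_factor k n hn,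
    fun p _ hp => Pool.Agent.J6H83.KA.psl2_factor k p hp, ?_⟩
  · intro K L G _ _ _ _ _ _ _ α h
    obtain ⟨hfin, hreg⟩ := Pool.Agent.J6H83.KA.step_one hk K L G α h
    refine ⟨hreg, fun hH => ?_⟩
    obtain ⟨F, i1, i2, i3, i4, i5, i6, i7, i8, γ, hγ, -⟩ := hreg
    exact Pool.Agent.TH377.IG.spec_hilb hH L G α ⟨F, i1, i2, i3, i4, i5, i6, i7, i8, γ, hγ⟩
  · intro T _ hfin hs hZ hc
    refine ⟨hfin, hs, hZ, ⊥, ?_, Or.inl ⟨1, ?_⟩⟩
    · rw [MonoidHom.range_eq_top.2 hc]
      exact isCompl_bot_top
    · intro x y _
      exact Subsingleton.elim _ _

end Pool.Agent.Results.MP_e9d732_al.KernelsOverAmple
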