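import Pool.Agent.J6H83.Mo.Main2

set_option autoImplicit false

namespace Pool.Agent.Results.MP_e9d732_al.MoebiusExtensions

/-- The finite embedding problem `α : G → Gal(L/K)` has a proper solution (the conclusion of the
frozen statement S03429). -/
def ProperlySolvable (K L G : Type) [Field K] [Field L] [Algebra K L] [FiniteDimensional K L]
    [IsGalois K L] [Group G] (α : G →* (L ≃ₐ[K] L)) : Prop :=
  ∃ (F : Type) (_ : Field F) (_ : Algebra K F) (_ : Algebra L F) (_ : IsScalarTower K L F),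
    FiniteDimensional K F ∧ IsGalois K F ∧
    ∃ γ : (F ≃ₐ[K] F) ≃* G, ∀ σ : F ≃ₐ[K] F, α (γ σ) = σ.restrictNormal L

/-- Let `K` be a Hilbertian field containing an ample field `k` of characteristic `0`, `L/K` a
finite Galois extension and `α : G → Gal(L/K)` a surjection from a finite group.
(1) Let `u ∈ L` be transcendental over `k` such that every `σ ∈ Gal(L/K)` acts on `u` as a
fractional linear transformation over `k`, let `C` be a normal subgroup of `G` with
`C ∩ ker α = 1` and `α(C) = Gal(L/K(u))`, and let `s : Gal(L/K) → G/C` be trivial on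
`Gal(L/K(u))` and a section modulo `Gal(L/K(u))`. Then `α` has a proper solution.
(2) If `α` has a section and `Gal(L/K)` has a representation in `GL_2(k)` in which only `1` is
scalar, then `α` has a proper solution.
(3) If `α` has a section and `Gal(L/K)` embeds in `S_3`, then `α` has a proper solution. -/
theorem result (k K : Type) [Field k] [CharZero k] [Field K] [Algebra k K]
    (hk : ∀ (n : ℕ) (s : Finset (MvPolynomial (Fin n) k)),
      (∃ x : Fin n → LaurentSeries k, ∀ p ∈ s, MvPolynomial.aeval x p = 0) →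
      ∃ y : Fin n → k, ∀ p ∈ s, MvPolynomial.eval y p = 0)
    (hHilb : ∀ (f : Polynomial (Polynomial K)), f.Monic → Irreducible f →
          (f.map (algebraMap (Polynomial K) (FractionRing (Polynomial K)))).Separable →
          ∀ g : Polynomial K, g ≠ 0 →
            ∃ a : K, g.eval a ≠ 0 ∧ Irreducible (f.map (Polynomial.evalRingHom a)))
    (L G : Type) [Field L] [Algebra K L] [Algebra k L] [IsScalarTower k K L]
    [FiniteDimensional K L] [IsGalois K L] [Group G] [Finite G]
    (α : G →* (L ≃ₐ[K] L)) (hα : Function.Surjective α) :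
    (∀ u : L, Transcendental k u →
      (∀ σ : L ≃ₐ[K] L, ∃ a b c d : k, a * d - b * c ≠ 0 ∧
        (algebraMap k L c * u + algebraMap k L d) * σ u =
          algebraMap k L a * u + algebraMap k L b) →
      ∀ (C : Subgroup G) [C.Normal], C ⊓ α.ker = ⊥ →
        (∀ σ : L ≃ₐ[K] L, σ u = u ↔ σ ∈ C.map α) →
        ∀ s : (L ≃ₐ[K] L) →* G ⧸ C, (∀ σ : L ≃ₐ[K] L, σ u = u → s σ = 1) →
          (∀ (σ : L ≃ₐ[K] L) (g : G), (g : G ⧸ C) = s σ → α g u = σ u) →
          ProperlySolvable K L G α) ∧
    (∀ R : (L ≃ₐ[K] L) →* GL (Fin 2) k,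
      (∀ σ, R σ 0 1 = 0 → R σ 1 0 = 0 → R σ 0 0 = R σ 1 1 → σ = 1) →
      ∀ s : (L ≃ₐ[K] L) →* G, (∀ σ, α (s σ) = σ) → ProperlySolvable K L G α) ∧
    (∀ j : (L ≃ₐ[K] L) →* Equiv.Perm (Fin 3), Function.Injective j →
      ∀ s : (L ≃ₐ[K] L) →* G, (∀ σ, α (s σ) = σ) → ProperlySolvable K L G α) :=
  ⟨fun u hut hu C _ hC hCu s hs1 hs =>
      Pool.Agent.J6H83.Mo.main_u k K L G hk hHilb u hut hu α hα C hC hCu s hs1 hs,
    fun R hR s hs => Pool.Agent.J6H83.Mo.main_R k K L G hk hHilb R hR α s hs,
    fun j hj s hs => Pool.Agent.J6H83.Mo.main_S3 k K L G hk hHilb j hj α s hs⟩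

end Pool.Agent.Results.MP_e9d732_al.MoebiusExtensions
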