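import Mathlib
import Pool.Agent.J6H95.LTB.Conv
import Pool.Agent.J6H95.SZ.Graph

/-!
# Hilbertian fields of characteristic `p`: kernels from algebraic groups with an open cell

The definitions of the class of homomorphisms are in the file `Pool/Agent/J6H95/LTB/Defs.lean`:

* `GrpF R`, `CellF G I`, `SteinbergF G`: a functor `G` of groups over the prime field `F_p`, embedded
  in the unit groups of `A ⊗ R` for a finite ring `R` (all functors are on integral domains `A` of
  characteristic `p`), an open cell containing `1` which is an open subset of the affine space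
  `A ^ I`, and an endomorphism `s` of `G` some power of which is the Frobenius endomorphism over
  `F_p`.
* `HasModel p γ`: the group `N` is the group of fixed points of such an `s` over `F_p`, all
  translates of the cell by elements of `N` meet the cell, and `C` acts on `N` (the action is `γ`)
  through automorphisms of `R` and linear substitutions of the affine space which preserve `G`, `s`
  and the cell.
* `ModelStep p π`: `π : W' → W` is split, with kernel a power `N ^ k`, on which `W` acts through a
  homomorphism to the wreath product `C ≀ S_k`, for some `γ : C → Aut N` with `HasModel p γ`.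
* `FactorM p T`: the simple group `T` is one of those of the file
  `Pool/Agent/Results/MP_e9d732_al/DefiningChar.lean` (`Factor p T`), or it is nonabelian and
  there are `γ : C → Aut N` with `HasModel p γ` and an equivariant surjection `N → T` such that `C`
  is embedded in `Aut T` as a complement of the group of inner automorphisms.
* `StepM p` is the smallest class of homomorphisms of groups which is closed under compositions
  and quotients and contains all epimorphisms (split or not) with a finite kernel all of whose
  composition factors satisfy `FactorM p`, all `π` with `ModelStep p π`, and all split epimorphisms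
  with a finite commutative kernel.

Groups with a model:

* `slAct B n`: the automorphisms of the finite commutative ring `B` act on `SL_n(B)`.
* `szAct B θ` (characteristic 2, files `Pool/Agent/J6H95/SZ`): `sg x` is the matrix of the `2 × 2` minors
  of the `4 × 4` matrix `x` with rows and columns from the list `01, 03, 23, 21`; it is an endomorphism of
  the symplectic group `Sp_4` whose square is the Frobenius endomorphism. For an automorphism `θ` of the
  finite commutative ring `B` such that `θ (θ x) ^ 2 = x`, `Sz B θ` is the group of all symplectic matrices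
  `x` over `B` with `sg (θ x) = x`, and the centralizer of `θ` in `Aut B` acts on it. If `B` is a field with
  `2 ^ (2 k + 1)` elements and `θ x = x ^ (2 ^ k)`, these are the Suzuki groups.
* the group generated by the graph automorphism `graph F : x ↦ sg x` of `Sp_4(F)`, `F` a finite field of
  characteristic 2.
-/

set_option autoImplicit false

open Pool.Agent.J6H95.LTB (StepM HasModel)
open Pool.Agent.J6H95.SZ (slAct szAct graph)

namespace Pool.Agent.Results.MP_e9d732_al.OpenCellKernels

/-- The field `K` is Hilbertian. -/
def Hilbertian (K : Type) [Field K] : Prop :=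
  ∀ (f : Polynomial (Polynomial K)), f.Monic → Irreducible f →
    (f.map (algebraMap (Polynomial K) (FractionRing (Polynomial K)))).Separable →
    ∀ g : Polynomial K, g ≠ 0 →
      ∃ a : K, g.eval a ≠ 0 ∧ Irreducible (f.map (Polynomial.evalRingHom a))

/-- A Galois extension `F` of `K` which contains the extension `L` of `K`. -/
structure GalExt (K L : Type) [Field K] [Field L] [Algebra K L] where
  F : Type
  [field : Field F]
  [algK : Algebra K F]
  [algL : Algebra L F]
  [tower : IsScalarTower K L F]
  [gal : IsGalois K F]

attribute [instance] GalExt.field GalExt.algK GalExt.algL GalExt.tower GalExt.gal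

/-- The Galois group. -/
def GalExt.Gal {K L : Type} [Field K] [Field L] [Algebra K L] (E : GalExt K L) : Type :=
  E.F ≃ₐ[K] E.F

/-- The group structure of the Galois group. -/
instance GalExt.group {K L : Type} [Field K] [Field L] [Algebra K L] (E : GalExt K L) :
    Group E.Gal :=
  (inferInstance : Group (E.F ≃ₐ[K] E.F))

/-- The Krull topology of the Galois group. -/
instance GalExt.top {K L : Type} [Field K] [Field L] [Algebra K L] (E : GalExt K L) :
    TopologicalSpace E.Gal :=
  (inferInstance : TopologicalSpace (E.F ≃ₐ[K] E.F))

/-- The elements of the Galois group are the automorphisms of `E.F` over `K`. -/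
def GalExt.aut {K L : Type} [Field K] [Field L] [Algebra K L] (E : GalExt K L)
    (σ : E.Gal) : E.F ≃ₐ[K] E.F := σ

/-- The restriction of `σ` to `L` is `τ`. -/
def GalExt.Res {K L : Type} [Field K] [Field L] [Algebra K L] (E : GalExt K L)
    (σ : E.Gal) (τ : L ≃ₐ[K] L) : Prop :=
  ∀ x : L, E.aut σ (algebraMap L E.F x) = algebraMap L E.F (τ x)

/-- A sequence `W 0 ← W 1 ← W 2 ← ...` of homomorphisms of groups. -/
structure Tower where
  W : ℕ → Type
  [grp : ∀ i, Group (W i)]
  π : ∀ i, W (i + 1) →* W i

attribute [instance] Tower.grp

/-- The inverse limit of the sequence `W 0 ← W 1 ← W 2 ← ...`: the group of all sequences `x` with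
`π i (x (i + 1)) = x i`. -/
def Tower.Lim (t : Tower) : Subgroup (∀ i, t.W i) :=
  ⨅ i, ((t.π i).comp (Pi.evalMonoidHom t.W (i + 1))).eqLocus (Pi.evalMonoidHom t.W i)

/-- The defining property of the inverse limit. -/
theorem Tower.mem_Lim (t : Tower) (x : ∀ i, t.W i) :
    x ∈ t.Lim ↔ ∀ i, t.π i (x (i + 1)) = x i := by
  unfold Tower.Lim
  rw [Subgroup.mem_iInf]
  exact Iff.rfl

theorem lim_eq (t : Tower) : Pool.Agent.TH15.IGP.Lim t.π = t.Lim := by
  ext x
  rw [Tower.mem_Lim]
  exact Iff.rfl

/-- The component in `W i` of an element of the inverse limit. -/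
def Tower.comp (t : Tower) (i : ℕ) (x : t.Lim) : t.W i := x.1 i

/-- The embedding problem over `K` given by the finite Galois extension `L` of `K` and the
projection `x ↦ e (x 0)` of the inverse limit of the `W i` to `Gal(L/K)` has a proper solution:
there are a Galois extension `E` of `K` containing `L` and an isomorphism `γ` of `Gal(E/K)` with the
inverse limit, all of whose components are continuous (have open kernel), such that the restriction
to `L` is `σ ↦ e (component of γ σ in W 0)`. -/
def ProperSol (K L : Type) [Field K] [Field L] [Algebra K L] (t : Tower)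
    (e : t.W 0 ≃* (L ≃ₐ[K] L)) : Prop :=
  ∃ (E : GalExt K L) (γ : E.Gal ≃* t.Lim),
    (∀ i, IsOpen {σ : E.Gal | t.comp i (γ σ) = 1}) ∧ ∀ σ : E.Gal, E.Res σ (e (t.comp 0 (γ σ)))

/-- The finite embedding problem `α : G → Gal(L/K)` over `K` has a proper solution: a finite Galois
extension `E` of `K` containing `L` and an isomorphism `γ : Gal(E/K) → G` such that `α (γ σ)` is the
restriction of `σ` to `L`. -/
def ProperSolOne (K L : Type) [Field K] [Field L] [Algebra K L] {G : Type} [Group G]
    (α : G →* (L ≃ₐ[K] L)) : Prop :=
  ∃ E : GalExt K L, FiniteDimensional K E.F ∧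
    ∃ γ : E.Gal ≃* G, ∀ σ : E.Gal, E.Res σ (α (γ σ))

theorem step_one (p : ℕ) [Fact p.Prime] (K : Type) [Field K] [CharP K p] (hK : Hilbertian K)
    (L G : Type) [Field L] [Algebra K L] [FiniteDimensional K L] [IsGalois K L] [Group G]
    (α : G →* (L ≃ₐ[K] L)) (h : StepM p α) : ProperSolOne K L α := by
  have hinf : Infinite K := Pool.Agent.TH444.TW.infinite_of_hilb hK
  obtain ⟨h1, h2⟩ := (h.un K).main p inferInstance
  obtain ⟨F, i1, i2, i3, i4, i5, i6, i7, i8, γ, hγ, -⟩ := h2 K L (MulEquiv.refl _)
  obtain ⟨F, j1, j2, j3, j4, j5, j6, γ, hγ⟩ := Pool.Agent.TH377.IG.spec_hilb hK L G α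
    ⟨F, i1, i2, i3, i4, i5, i6, i7, i8, γ, hγ⟩
  refine ⟨⟨F⟩, j5, γ, fun σ x => ?_⟩
  have h3 := (hγ σ).symm
  have h4 := AlgEquiv.restrictNormal_commutes (show F ≃ₐ[K] F from σ) L x
  exact h4.symm.trans (congrArg (fun τ : L ≃ₐ[K] L => algebraMap L F (τ x)) h3)

end Pool.Agent.Results.MP_e9d732_al.OpenCellKernels

open Pool.Agent.Results.MP_e9d732_al.OpenCellKernels in
/-- Embedding problems over Hilbertian fields of characteristic `p`: (1) towers of homomorphisms in
the class `StepM p`; (2) finite embedding problems in the class `StepM p`, in particular all those,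
split or not, with composition factors of the kernel satisfying `FactorM p`; (3) the groups `SL_n(B)`,
`n ≥ 1`, for all finite commutative rings `B ≠ 0` of characteristic `p`, have a model, with the action
of the group of automorphisms of `B`; (4) the groups `Sz B θ` in characteristic 2, in particular the
Suzuki groups, have a model, with the action of the automorphisms of `B` which commute with `θ`; (5) the
groups `Sp_4(F)`, `F` a finite field of characteristic 2, with the action of the group generated by the
graph automorphism, have a model. -/
theorem Pool.Agent.Results.MP_e9d732_al.OpenCellKernels.result :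
    (∀ (p : ℕ) [Fact p.Prime] (K : Type) [Field K] [CharP K p], Hilbertian K →
      ∀ (L : Type) [Field L] [Algebra K L] [FiniteDimensional K L] [IsGalois K L],
        (∀ (t : Tower) (e : t.W 0 ≃* (L ≃ₐ[K] L)), (∀ i, StepM p (t.π i)) → ProperSol K L t e) ∧
        (∀ (G : Type) [Group G] (α : G →* (L ≃ₐ[K] L)), StepM p α → ProperSolOne K L α)) ∧
    (∀ (p : ℕ) [Fact p.Prime] (B : Type) [CommRing B] [Algebra (ZMod p) B] [Finite B]
      [Nontrivial B] (n : ℕ), HasModel p (slAct B (n + 1))) ∧
    (∀ (B : Type) [CommRing B] [CharP B 2] [Finite B] [Nontrivial B] (θ : B ≃+* B),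
      (∀ x, θ (θ x) ^ 2 = x) → HasModel 2 (szAct B θ)) ∧
    (∀ (F : Type) [Field F] [CharP F 2] [Finite F],
      HasModel 2 (Subgroup.subtype (Subgroup.zpowers (graph F)))) := by
  refine ⟨?_, fun p _ B _ _ _ _ n => Pool.Agent.J6H95.SZ.sl_model p B n,
    fun B _ _ _ _ θ h => Pool.Agent.J6H95.SZ.sz_model B θ h,
    fun F _ _ _ => Pool.Agent.J6H95.SZ.graph_model F⟩
  intro p _ K _ _ hK L _ _ _ _
  refine ⟨?_, ?_⟩
  · intro t e hp
    obtain ⟨F, i1, i2, i3, i4, i5, γ, h1, h2⟩ :=
      Pool.Agent.J6H95.LT.stepL_hilb p hK t.W t.π (fun i => (hp i).un K) L e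
    exact ⟨⟨F⟩, γ.trans (MulEquiv.subgroupCongr (lim_eq t)), h1, h2⟩
  · intro G _ α h
    exact step_one p K hK L G α h
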